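import Mathlib
import Pool.Agent.Lib.MP_e54599_an.Deg7

/-!
In every dimension `n ≥ 3` the sharp constant `K*(ρ, r, n)` of the three-balls inequality is not
identically `1`: it stays above a constant `K > 1` as `ρ → 0`, for every `r` in `[49/50, 1)`.
-/

namespace Pool.Agent.Results.MP_e54599_an.AboveOne

open InnerProductSpace

/-- `‖u‖_s`, the supremum of `|u|` over the open ball `B(0,s)` of `ℝ^n`. -/
noncomputable def supNorm {n : ℕ} (u : EuclideanSpace ℝ (Fin n) → ℂ) (s : ℝ) : ℝ :=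
  sSup ((fun x => ‖u x‖) '' Metric.ball 0 s)

/-- The class `H` of bounded complex-valued harmonic functions on the unit ball of `ℝ^n` with
`‖u‖_1 = 1`. -/
def classH (n : ℕ) : Set (EuclideanSpace ℝ (Fin n) → ℂ) :=
  {u | HarmonicOnNhd u (Metric.ball 0 1) ∧
    BddAbove ((fun x => ‖u x‖) '' Metric.ball 0 1) ∧ supNorm u 1 = 1}

/-- The set of the quotients `‖u‖_r / ‖u‖_ρ ^ (β/2)`, `β = log r / log ρ`, for `u` in `H`;
`K*(ρ, r, n)` is its supremum. -/
def quotients (n : ℕ) (ρ r : ℝ) : Set ℝ :=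
  {t | ∃ u ∈ classH n, t = supNorm u r / supNorm u ρ ^ (Real.log r / Real.log ρ / 2)}

lemma le_supNorm {n : ℕ} {u : EuclideanSpace ℝ (Fin n) → ℂ} {s : ℝ} (hs : s ≤ 1)
    (hb : BddAbove ((fun x => ‖u x‖) '' Metric.ball 0 1)) {x : EuclideanSpace ℝ (Fin n)}
    (hx : x ∈ Metric.ball (0 : EuclideanSpace ℝ (Fin n)) s) : ‖u x‖ ≤ supNorm u s :=
  le_csSup (hb.mono (Set.image_mono (Metric.ball_subset_ball hs))) ⟨x, hx, rfl⟩

lemma supNorm_le {n : ℕ} {u : EuclideanSpace ℝ (Fin n) → ℂ} {s B : ℝ} (hs : 0 < s)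
    (hB : ∀ x ∈ Metric.ball (0 : EuclideanSpace ℝ (Fin n)) s, ‖u x‖ ≤ B) : supNorm u s ≤ B := by
  apply csSup_le
  · exact ⟨_, 0, Metric.mem_ball_self hs, rfl⟩
  · rintro _ ⟨x, hx, rfl⟩
    exact hB x hx

/-- For every `n ≥ 3` and every `r` in `[49/50, 1)` there is `K > 1` with `K ≤ K*(ρ, r, n)` for all
small `ρ`, where `K*(ρ, r, n) = sup (quotients n ρ r)`. -/
theorem result : ∀ n : ℕ, 3 ≤ n → ∀ r : ℝ, 49 / 50 ≤ r → r < 1 →
    ∃ K : ℝ, 1 < K ∧ ∃ ρ₀ : ℝ, 0 < ρ₀ ∧ ρ₀ < r ∧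
      ∀ ρ : ℝ, 0 < ρ → ρ < ρ₀ → ∃ t ∈ quotients n ρ r, K ≤ t := by
  intro n hn r hr hr1
  obtain ⟨N, rfl⟩ : ∃ N, n = N + 3 := ⟨n - 3, by omega⟩
  have hr0 : 0 < r := by linarith
  obtain ⟨hsq, hpos⟩ := ThreeBallsHD.sq_lt_P7_axis hr hr1
  set g := ThreeBallsHD.P7 r 0 with hg
  have hlogr : Real.log r < 0 := Real.log_neg hr0 hr1
  set η := Real.log g - Real.log r / 2 with hη
  have hη0 : 0 < η := by
    have h1 := Real.log_lt_log hr0 hsq
    rw [Real.log_pow] at h1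
    push_cast at h1
    linarith
  set a := Real.log (35 / 16) with ha
  have ha0 : 0 < a := Real.log_pos (by norm_num)
  set M := (-Real.log r) * a / η + (-Real.log r) + 1 with hM
  have hq : 0 < (-Real.log r) * a / η := by
    apply div_pos (mul_pos (by linarith) ha0) hη0
  have hM0 : 0 < M := by rw [hM]; linarith
  have hMη : (-Real.log r) * a ≤ M * η := by
    have h1 : (-Real.log r) * a / η ≤ M := by rw [hM]; linarith
    rwa [div_le_iff₀ hη0] at h1
  refine ⟨Real.exp (η / 2), Real.one_lt_exp_iff.2 (by linarith), Real.exp (-M), Real.exp_pos _,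
    ?_, ?_⟩
  · rw [← Real.exp_log hr0]
    apply Real.exp_lt_exp.2
    rw [hM]; linarith
  intro ρ hρ0 hρM
  have hlogρ : Real.log ρ < -M := by
    rw [← Real.exp_lt_exp, Real.exp_log hρ0]; exact hρM
  have hlogρ0 : Real.log ρ < 0 := by linarith
  have hρ1 : ρ < 1 := by
    by_contra h
    exact absurd (Real.log_nonneg (not_lt.1 h)) (by linarith)
  set u := ThreeBallsHD.test7 N with hu
  have hb : ∀ x ∈ Metric.ball (0 : EuclideanSpace ℝ (Fin (N + 3))) 1, ‖u x‖ ≤ 1 := by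
    intro x hx
    rw [mem_ball_zero_iff] at hx
    exact (ThreeBallsHD.norm_test7_le hx).1
  have hbdd : BddAbove ((fun x => ‖u x‖) ''
      Metric.ball (0 : EuclideanSpace ℝ (Fin (N + 3))) 1) := by
    refine ⟨1, ?_⟩
    rintro _ ⟨x, hx, rfl⟩
    exact hb x hx
  have haxis : ∀ s R : ℝ, 0 ≤ s → s < R → R ≤ 1 → ThreeBallsHD.P7 s 0 ≤ supNorm u R := by
    intro s R hs0 hsR hR
    have h2 : EuclideanSpace.single (0 : Fin (N + 3)) s
        ∈ Metric.ball (0 : EuclideanSpace ℝ (Fin (N + 3))) R := by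
      rw [mem_ball_zero_iff, PiLp.norm_single, Real.norm_of_nonneg hs0]
      exact hsR
    have h3 := le_supNorm hR hbdd h2
    rw [hu, ThreeBallsHD.test7_axis, Complex.norm_real] at h3
    exact (le_abs_self _).trans h3
  have hlim : ∀ R : ℝ, 0 < R → R ≤ 1 → ThreeBallsHD.P7 R 0 ≤ supNorm u R := by
    intro R hR0 hR1
    have hlim : Filter.Tendsto (fun s : ℝ => ThreeBallsHD.P7 s 0) (nhdsWithin R (Set.Iio R))
        (nhds (ThreeBallsHD.P7 R 0)) := by
      have hc : Continuous fun s : ℝ => ThreeBallsHD.P7 s 0 := by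
        unfold ThreeBallsHD.P7
        fun_prop
      exact hc.continuousAt.tendsto.mono_left nhdsWithin_le_nhds
    refine le_of_tendsto hlim ?_
    filter_upwards [Ioo_mem_nhdsLT hR0] with s hs
    exact haxis s R hs.1.le hs.2 hR1
  have hM1 : supNorm u 1 = 1 := by
    apply le_antisymm (supNorm_le one_pos hb)
    have h1 := hlim 1 one_pos le_rfl
    have h2 : ThreeBallsHD.P7 1 0 = 1 := by unfold ThreeBallsHD.P7; norm_num
    rwa [h2] at h1
  have hH : u ∈ classH (N + 3) :=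
    ⟨fun x _ => ThreeBallsHD.test7_harmonicAt N x, hbdd, hM1⟩
  have hMr : g ≤ supNorm u r := hlim r hr0 hr1.le
  have hMr0 : 0 < supNorm u r := hpos.trans_le hMr
  have hMρ : supNorm u ρ ≤ 35 / 16 * ρ := by
    apply supNorm_le hρ0
    intro x hx
    rw [mem_ball_zero_iff] at hx
    exact (ThreeBallsHD.norm_test7_le (hx.trans hρ1)).2.trans (by linarith)
  have hMρ0 : 0 < supNorm u ρ := by
    have h1 : 0 < ThreeBallsHD.P7 ρ 0 := by
      have e : ThreeBallsHD.P7 ρ 0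
          = ρ * (4 / 3 - 14 / 33 * ρ ^ 2 + 4 / 39 * ρ ^ 4 - 5 / 429 * ρ ^ 6) := by
        unfold ThreeBallsHD.P7; ring
      rw [e]
      have h2 : ρ ^ 2 ≤ 1 := pow_le_one₀ hρ0.le hρ1.le
      have h6 : ρ ^ 6 ≤ 1 := pow_le_one₀ hρ0.le hρ1.le
      have h4 : 0 ≤ ρ ^ 4 := by positivity
      exact mul_pos hρ0 (by linarith)
    exact h1.trans_le (hlim ρ hρ0 hρ1.le)
  refine ⟨_, ⟨u, hH, rfl⟩, ?_⟩
  have hx3 : 0 < supNorm u ρ ^ (Real.log r / Real.log ρ / 2) := Real.rpow_pos_of_pos hMρ0 _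
  rw [← Real.exp_log (div_pos hMr0 hx3)]
  apply Real.exp_le_exp.2
  rw [Real.log_div hMr0.ne' hx3.ne', Real.log_rpow hMρ0]
  have hL1 : Real.log g ≤ Real.log (supNorm u r) := Real.log_le_log hpos hMr
  have hL2 : Real.log (supNorm u ρ) ≤ a + Real.log ρ := by
    have := Real.log_le_log hMρ0 hMρ
    rwa [Real.log_mul (by norm_num) hρ0.ne'] at this
  have hβ0 : 0 < Real.log r / Real.log ρ := div_pos_of_neg_of_neg hlogr hlogρ0
  have hβ1 : Real.log r / Real.log ρ * Real.log ρ = Real.log r :=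
    div_mul_cancel₀ _ hlogρ0.ne
  have hβ2 : Real.log r / Real.log ρ * a ≤ η := by
    rw [div_mul_eq_mul_div, div_le_iff_of_neg hlogρ0]
    nlinarith
  nlinarith [mul_le_mul_of_nonneg_left hL2 hβ0.le]

end Pool.Agent.Results.MP_e54599_an.AboveOne
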