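import Mathlib
import Pool.Agent.Lib.MP_e54599_an.HighDim

/-!
The sharp constant `K*(ρ, r, n)` of the three-balls inequality grows exponentially with the
dimension `n`, for all fixed radii `0 < ρ < r < 1`.
-/

namespace Pool.Agent.Results.MP_e54599_an.ExponentialGrowth

open InnerProductSpace

/-- `‖u‖_s`, the supremum of `|u|` over the open ball `B(0,s)` of `ℝ^n`. -/
noncomputable def supNorm {n : ℕ} (u : EuclideanSpace ℝ (Fin n) → ℂ) (s : ℝ) : ℝ :=
  sSup ((fun x => ‖u x‖) '' Metric.ball 0 s)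

/-- The class `H` of bounded complex-valued harmonic functions on the unit ball of `ℝ^n` with
`‖u‖_1 = 1`. -/
def classH (n : ℕ) : Set (EuclideanSpace ℝ (Fin n) → ℂ) :=
  {u | HarmonicOnNhd u (Metric.ball 0 1) ∧
    BddAbove ((fun x => ‖u x‖) '' Metric.ball 0 1) ∧ supNorm u 1 = 1}

/-- The set of the quotients `‖u‖_r / ‖u‖_ρ ^ (β/2)`, `β = log r / log ρ`, for `u` in `H`;
`K*(ρ, r, n)` is its supremum. -/
def quotients (n : ℕ) (ρ r : ℝ) : Set ℝ :=
  {t | ∃ u ∈ classH n, t = supNorm u r / supNorm u ρ ^ (Real.log r / Real.log ρ / 2)}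

/-- `log sin (μ r) - (β/2) log sin (μ ρ)`, `β = log r / log ρ`. -/
noncomputable def rate (ρ r μ : ℝ) : ℝ :=
  Real.log (Real.sin (μ * r)) - Real.log r / Real.log ρ / 2 * Real.log (Real.sin (μ * ρ))

lemma le_supNorm {n : ℕ} {u : EuclideanSpace ℝ (Fin n) → ℂ} {s : ℝ} (hs : s ≤ 1)
    (hb : BddAbove ((fun x => ‖u x‖) '' Metric.ball 0 1)) {x : EuclideanSpace ℝ (Fin n)}
    (hx : x ∈ Metric.ball (0 : EuclideanSpace ℝ (Fin n)) s) : ‖u x‖ ≤ supNorm u s :=
  le_csSup (hb.mono (Set.image_mono (Metric.ball_subset_ball hs))) ⟨x, hx, rfl⟩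

lemma supNorm_le {n : ℕ} {u : EuclideanSpace ℝ (Fin n) → ℂ} {s B : ℝ} (hs : 0 < s)
    (hB : ∀ x ∈ Metric.ball (0 : EuclideanSpace ℝ (Fin n)) s, ‖u x‖ ≤ B) : supNorm u s ≤ B := by
  apply csSup_le
  · exact ⟨_, 0, Metric.mem_ball_self hs, rfl⟩
  · rintro _ ⟨x, hx, rfl⟩
    exact hB x hx

open scoped Pointwise in
lemma supNorm_smul {n : ℕ} (u : EuclideanSpace ℝ (Fin n) → ℂ) {a : ℝ} (ha : 0 ≤ a) (s : ℝ) :
    supNorm (fun x => (a : ℂ) • u x) s = a * supNorm u s := by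
  have h : (fun x => ‖(a : ℂ) • u x‖) '' Metric.ball (0 : EuclideanSpace ℝ (Fin n)) s
      = a • ((fun x => ‖u x‖) '' Metric.ball 0 s) := by
    rw [← Set.image_smul, Set.image_image]
    apply Set.image_congr
    intro x _
    rw [norm_smul, Complex.norm_real, Real.norm_of_nonneg ha, smul_eq_mul]
  rw [supNorm, h, Real.sSup_smul_of_nonneg ha, smul_eq_mul, supNorm]

/-- The bound in a fixed dimension. -/
theorem main_bound {n : ℕ} (hn : 2 ≤ n) {ρ r μ θ : ℝ} (hρ0 : 0 < ρ) (hρr : ρ < r) (hr1 : r < 1)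
    (hμ : Real.pi / 2 ≤ μ) (hμr : μ * r ≤ Real.pi / 2) (hθ1 : θ < 1) (m : ℕ)
    (hm : μ ^ 2 * m ≤ θ * (n - 1)) :
    ∃ t ∈ quotients n ρ r, Real.exp (m * rate ρ r μ - θ / (2 * (1 - θ))) ≤ t := by
  obtain ⟨N, rfl⟩ : ∃ N, n = N + 1 := ⟨n - 1, by omega⟩
  have hN : 0 < N := by omega
  have hm' : μ ^ 2 * m ≤ θ * N := by
    push_cast at hm
    simpa using hm
  have hπ := Real.pi_pos
  have hμ0 : 0 < μ := by linarith
  have hr0 : 0 < r := hρ0.trans hρr
  have hρ1 : ρ < 1 := hρr.trans hr1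
  have hμρ : μ * ρ < μ * r := mul_lt_mul_of_pos_left hρr hμ0
  have hμρ0 : 0 < μ * ρ := mul_pos hμ0 hρ0
  have hμr0 : 0 < μ * r := mul_pos hμ0 hr0
  set A := θ / (2 * (1 - θ)) with hA
  set u := ThreeBallsHD.testFun N m μ (μ / √N) with hu
  have hharm : ∀ x, HarmonicAt u x :=
    ThreeBallsHD.testFun_harmonicAt N m μ _ (ThreeBallsHD.freq_sq hN μ)
  have h1 : ∀ x ∈ Metric.ball (0 : EuclideanSpace ℝ (Fin (N + 1))) 1, ‖u x‖ ≤ Real.exp A := by
    intro x hx
    rw [mem_ball_zero_iff] at hx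
    exact ThreeBallsHD.testFun_le_one hN hθ1 hm' hx
  have hρb : ∀ x ∈ Metric.ball (0 : EuclideanSpace ℝ (Fin (N + 1))) ρ,
      ‖u x‖ ≤ Real.sin (μ * ρ) ^ m * Real.exp A := by
    intro x hx
    rw [mem_ball_zero_iff] at hx
    exact ThreeBallsHD.testFun_le_rho hN hθ1 hm' hρ0 hμ (by linarith) hx
  have hbdd : BddAbove ((fun x => ‖u x‖) ''
      Metric.ball (0 : EuclideanSpace ℝ (Fin (N + 1))) 1) := by
    refine ⟨Real.exp A, ?_⟩
    rintro _ ⟨x, hx, rfl⟩
    exact h1 x hx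
  -- values on the axis
  have haxis : ∀ s R : ℝ, 0 ≤ s → s < R → R ≤ 1 →
      |Real.sin (μ * s)| ^ m ≤ supNorm u R := by
    intro s R hs0 hsR hR
    have h2 : EuclideanSpace.single (0 : Fin (N + 1)) s
        ∈ Metric.ball (0 : EuclideanSpace ℝ (Fin (N + 1))) R := by
      rw [mem_ball_zero_iff, PiLp.norm_single, Real.norm_of_nonneg hs0]
      exact hsR
    have h3 := le_supNorm hR hbdd h2
    rw [hu, ThreeBallsHD.testFun_axis, Complex.norm_real, norm_pow, Real.norm_eq_abs] at h3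
    exact h3
  have hsinr : 0 < Real.sin (μ * r) := Real.sin_pos_of_pos_of_lt_pi hμr0 (by linarith)
  have hsinρ : 0 < Real.sin (μ * ρ) := Real.sin_pos_of_pos_of_lt_pi hμρ0 (by linarith)
  have hMr : Real.sin (μ * r) ^ m ≤ supNorm u r := by
    have hlim : Filter.Tendsto (fun s : ℝ => |Real.sin (μ * s)| ^ m) (nhdsWithin r (Set.Iio r))
        (nhds (|Real.sin (μ * r)| ^ m)) := by
      have hc : Continuous fun s : ℝ => |Real.sin (μ * s)| ^ m := by fun_prop
      exact hc.continuousAt.tendsto.mono_left nhdsWithin_le_nhds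
    rw [abs_of_pos hsinr] at hlim
    refine le_of_tendsto hlim ?_
    filter_upwards [Ioo_mem_nhdsLT hr0] with s hs
    exact haxis s r hs.1.le hs.2 hr1.le
  have hMr0 : 0 < supNorm u r := lt_of_lt_of_le (pow_pos hsinr m) hMr
  have hMρ0 : 0 < supNorm u ρ := by
    have h2 : 0 < |Real.sin (μ * (ρ / 2))| ^ m := by
      apply pow_pos
      apply abs_pos.2
      have : 0 < μ * (ρ / 2) := by positivity
      exact (Real.sin_pos_of_pos_of_lt_pi this (by linarith)).ne'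
    exact h2.trans_le (haxis (ρ / 2) ρ (by linarith) (by linarith) hρ1.le)
  have hM10 : 0 < supNorm u 1 := by
    have h2 : 0 < |Real.sin (μ * (ρ / 2))| ^ m := by
      apply pow_pos
      apply abs_pos.2
      have : 0 < μ * (ρ / 2) := by positivity
      exact (Real.sin_pos_of_pos_of_lt_pi this (by linarith)).ne'
    exact h2.trans_le (haxis (ρ / 2) 1 (by linarith) (by linarith) le_rfl)
  have hM1 : supNorm u 1 ≤ Real.exp A := supNorm_le one_pos h1
  have hMρ : supNorm u ρ ≤ Real.sin (μ * ρ) ^ m * Real.exp A := supNorm_le hρ0 hρb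
  -- logarithms
  have hL1 : Real.log (supNorm u 1) ≤ A := by
    rw [← Real.log_exp A]; exact Real.log_le_log hM10 hM1
  have hLρ : Real.log (supNorm u ρ) ≤ m * Real.log (Real.sin (μ * ρ)) + A := by
    have := Real.log_le_log hMρ0 hMρ
    rwa [Real.log_mul (pow_pos hsinρ m).ne' (Real.exp_pos A).ne', Real.log_exp, Real.log_pow]
      at this
  have hLr : m * Real.log (Real.sin (μ * r)) ≤ Real.log (supNorm u r) := by
    have := Real.log_le_log (pow_pos hsinr m) hMr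
    rwa [Real.log_pow] at this
  have hlogρ : Real.log ρ < 0 := Real.log_neg hρ0 hρ1
  have hlogr : Real.log r < 0 := Real.log_neg hr0 hr1
  have hlog : Real.log ρ < Real.log r := Real.log_lt_log hρ0 hρr
  set β := Real.log r / Real.log ρ with hβ
  have hβ0 : 0 < β := div_pos_of_neg_of_neg hlogr hlogρ
  have hβ1 : β < 1 := by rw [hβ, div_lt_one_of_neg hlogρ]; exact hlog
  -- the normalised function
  set a := (supNorm u 1)⁻¹ with ha
  have ha0 : 0 < a := inv_pos.2 hM10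
  have hv : (fun x => (a : ℂ) • u x) ∈ classH (N + 1) := by
    refine ⟨?_, ?_, ?_⟩
    · intro x _
      have := (hharm x).const_smul (c := (a : ℝ))
      refine (harmonicAt_congr_nhds ?_).1 this
      refine Filter.Eventually.of_forall fun y => ?_
      simp
    · obtain ⟨B, hB⟩ := hbdd
      refine ⟨a * B, ?_⟩
      rintro _ ⟨x, hx, rfl⟩
      have h2 : ‖u x‖ ≤ B := hB ⟨x, hx, rfl⟩
      show ‖(a : ℂ) • u x‖ ≤ a * B
      rw [norm_smul, Complex.norm_real, Real.norm_of_nonneg ha0.le]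
      exact mul_le_mul_of_nonneg_left h2 ha0.le
    · rw [supNorm_smul u ha0.le, ha, inv_mul_cancel₀ hM10.ne']
  refine ⟨_, ⟨_, hv, rfl⟩, ?_⟩
  rw [supNorm_smul u ha0.le, supNorm_smul u ha0.le]
  have hx1 : 0 < a * supNorm u r := mul_pos ha0 hMr0
  have hx2 : 0 < a * supNorm u ρ := mul_pos ha0 hMρ0
  have hx3 : 0 < (a * supNorm u ρ) ^ (β / 2) := Real.rpow_pos_of_pos hx2 _
  rw [← Real.exp_log (div_pos hx1 hx3)]
  apply Real.exp_le_exp.2
  rw [Real.log_div hx1.ne' hx3.ne', Real.log_rpow hx2, Real.log_mul ha0.ne' hMr0.ne',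
    Real.log_mul ha0.ne' hMρ0.ne', ha, Real.log_inv, rate, ← hβ]
  nlinarith

/-- The asymptotic form. -/
theorem asymptotic {ρ r μ c : ℝ} (hρ0 : 0 < ρ) (hρr : ρ < r) (hr1 : r < 1)
    (hμ : Real.pi / 2 ≤ μ) (hμr : μ * r ≤ Real.pi / 2) (hc : c < rate ρ r μ / μ ^ 2) :
    ∃ n₀ : ℕ, ∀ n ≥ n₀, ∃ t ∈ quotients n ρ r, Real.exp (c * n) ≤ t := by
  have hπ := Real.pi_pos
  have hμ0 : 0 < μ := by linarith
  have hμ2 : 0 < μ ^ 2 := by positivity
  set W := rate ρ r μ with hW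
  set R := W / μ ^ 2 with hR
  set δ := (R - c) / (2 * (|R| + (R - c) + 1)) with hδ
  have hRc : 0 < R - c := by linarith
  have hden : 0 < 2 * (|R| + (R - c) + 1) := by
    have := abs_nonneg R
    linarith
  have hδ0 : 0 < δ := div_pos hRc hden
  have hδ1 : δ < 1 := by
    rw [hδ, div_lt_one hden]
    have := abs_nonneg R
    linarith
  have hδR : δ * |R| ≤ (R - c) / 2 := by
    rw [hδ, div_mul_eq_mul_div, div_le_div_iff₀ hden two_pos]
    have := abs_nonneg R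
    nlinarith
  set θ := 1 - δ with hθ
  have hθ0 : 0 ≤ θ := by linarith
  have hθ1 : θ < 1 := by linarith
  have hgap : (R - c) / 2 ≤ θ * R - c := by
    have : δ * R ≤ δ * |R| := mul_le_mul_of_nonneg_left (le_abs_self R) hδ0.le
    rw [hθ]
    linarith
  set A := θ / (2 * (1 - θ)) with hA
  obtain ⟨n₁, hn₁⟩ := exists_nat_ge ((A + |W| + |R|) / ((R - c) / 2))
  refine ⟨max 2 n₁, fun n hn => ?_⟩
  have hn2 : 2 ≤ n := (le_max_left _ _).trans hn
  have hn1 : (n₁ : ℝ) ≤ n := by exact_mod_cast (le_max_right _ _).trans hn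
  have hn1' : (1 : ℝ) ≤ n := by
    have : (2 : ℝ) ≤ n := by exact_mod_cast hn2
    linarith
  have hbig : A + |W| + |R| ≤ n * ((R - c) / 2) := by
    have := hn₁.trans hn1
    rwa [div_le_iff₀ (by linarith)] at this
  set y := θ * (n - 1) / μ ^ 2 with hy
  have hy0 : 0 ≤ y := by
    rw [hy]
    have : (0 : ℝ) ≤ n - 1 := by linarith
    positivity
  obtain ⟨t, ht, hle⟩ := main_bound hn2 hρ0 hρr hr1 hμ hμr hθ1 ⌊y⌋₊ (by
    have := Nat.floor_le hy0
    have h2 : μ ^ 2 * y = θ * (n - 1) := by rw [hy]; field_simp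
    nlinarith)
  refine ⟨t, ht, le_trans (Real.exp_le_exp.2 ?_) hle⟩
  have hf1 : (⌊y⌋₊ : ℝ) ≤ y := Nat.floor_le hy0
  have hf2 : y < ⌊y⌋₊ + 1 := Nat.lt_floor_add_one y
  have hWy : y * W - |W| ≤ ⌊y⌋₊ * W := by
    have h3 : |(y - ⌊y⌋₊) * W| ≤ |W| := by
      rw [abs_mul, abs_of_nonneg (by linarith)]
      have := abs_nonneg W
      nlinarith
    have h4 := le_abs_self ((y - ⌊y⌋₊) * W)
    nlinarith
  have hyW : y * W = θ * R * (n - 1) := by
    rw [hy, hR]; field_simp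
  have hθR : θ * R ≤ |R| := by
    have h5 : θ * R ≤ θ * |R| := mul_le_mul_of_nonneg_left (le_abs_self R) hθ0
    have h6 : θ * |R| ≤ 1 * |R| := mul_le_mul_of_nonneg_right hθ1.le (abs_nonneg R)
    linarith
  have hfin : n * ((R - c) / 2) ≤ n * (θ * R - c) :=
    mul_le_mul_of_nonneg_left hgap (by linarith)
  rw [← hW, ← hA]
  nlinarith

/-- The rate is positive at `μ = π / (2 r)`. -/
theorem rate_pos {ρ r : ℝ} (hρ0 : 0 < ρ) (hρr : ρ < r) (hr1 : r < 1) :
    0 < rate ρ r (Real.pi / (2 * r)) := by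
  have hπ := Real.pi_pos
  have hr0 : 0 < r := hρ0.trans hρr
  have hρ1 : ρ < 1 := hρr.trans hr1
  have h1 : Real.pi / (2 * r) * r = Real.pi / 2 := by field_simp
  have h2 : Real.pi / (2 * r) * ρ < Real.pi / 2 := by
    rw [← h1]
    exact mul_lt_mul_of_pos_left hρr (by positivity)
  have h3 : 0 < Real.pi / (2 * r) * ρ := by positivity
  have h4 : 0 < Real.sin (Real.pi / (2 * r) * ρ) :=
    Real.sin_pos_of_pos_of_lt_pi h3 (by linarith)
  have h5 : Real.sin (Real.pi / (2 * r) * ρ) < 1 := by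
    rw [← Real.sin_pi_div_two]
    exact Real.sin_lt_sin_of_lt_of_le_pi_div_two (by linarith) le_rfl h2
  have h6 : Real.log (Real.sin (Real.pi / (2 * r) * ρ)) < 0 := Real.log_neg h4 h5
  have hβ0 : 0 < Real.log r / Real.log ρ / 2 :=
    div_pos (div_pos_of_neg_of_neg (Real.log_neg hr0 hr1) (Real.log_neg hρ0 hρ1)) two_pos
  rw [rate, h1, Real.sin_pi_div_two, Real.log_one]
  nlinarith [mul_pos hβ0 (neg_pos.2 h6)]

/-- Exponential growth of `K*(ρ, r, n) = sup (quotients n ρ r)` with the dimension `n`, for all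
fixed `0 < ρ < r < 1`: an explicit lower bound in every dimension, its asymptotic form, and the
positivity of the rate at `μ = π / (2 r)`. -/
theorem result : ∀ ρ r : ℝ, 0 < ρ → ρ < r → r < 1 →
    0 < rate ρ r (Real.pi / (2 * r)) ∧
    ∀ μ : ℝ, Real.pi / 2 ≤ μ → μ ≤ Real.pi / (2 * r) →
      (∀ n m : ℕ, ∀ θ : ℝ, 2 ≤ n → θ < 1 → μ ^ 2 * m ≤ θ * (n - 1) →
        ∃ t ∈ quotients n ρ r, Real.exp (m * rate ρ r μ - θ / (2 * (1 - θ))) ≤ t) ∧
      (∀ c : ℝ, c < rate ρ r μ / μ ^ 2 → ∃ n₀ : ℕ, ∀ n ≥ n₀,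
        ∃ t ∈ quotients n ρ r, Real.exp (c * n) ≤ t) := by
  intro ρ r hρ0 hρr hr1
  refine ⟨rate_pos hρ0 hρr hr1, fun μ h1 h2 => ?_⟩
  have hr0 : 0 < r := hρ0.trans hρr
  have h3 : μ * r ≤ Real.pi / 2 := by
    rw [le_div_iff₀ (by positivity)] at h2
    linarith
  exact ⟨fun n m θ hn hθ hm => main_bound hn hρ0 hρr hr1 h1 h3 hθ m hm,
    fun c hc => asymptotic hρ0 hρr hr1 h1 h3 hc⟩

end Pool.Agent.Results.MP_e54599_an.ExponentialGrowth
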