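import Mathlib
import Pool.Agent.Lib.MP_e54599_an.NearFinal

/-!
In every dimension `n ≥ 2` the sharp constant of the three-balls inequality is `K*(ρ, r, n) = 1`
whenever `ρ < r ≤ ρ + ρ (1 - ρ) / (5 * 10 ^ 8 * n ^ 8)`.
-/

namespace Pool.Agent.Results.MP_e54599_an.OneNearDiagonal

open InnerProductSpace

/-- `‖u‖_s`, the supremum of `|u|` over the open ball `B(0,s)` of `ℝ^n`. -/
noncomputable def supNorm {n : ℕ} (u : EuclideanSpace ℝ (Fin n) → ℂ) (s : ℝ) : ℝ :=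
  sSup ((fun x => ‖u x‖) '' Metric.ball 0 s)

/-- The class `H` of bounded complex-valued harmonic functions on the unit ball of `ℝ^n` with
`‖u‖_1 = 1`. -/
def classH (n : ℕ) : Set (EuclideanSpace ℝ (Fin n) → ℂ) :=
  {u | HarmonicOnNhd u (Metric.ball 0 1) ∧
    BddAbove ((fun x => ‖u x‖) '' Metric.ball 0 1) ∧ supNorm u 1 = 1}

/-- The set of the quotients `‖u‖_r / ‖u‖_ρ ^ (β/2)`, `β = log r / log ρ`, for `u` in `H`. -/
def quotients (n : ℕ) (ρ r : ℝ) : Set ℝ :=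
  {t | ∃ u ∈ classH n, t = supNorm u r / supNorm u ρ ^ (Real.log r / Real.log ρ / 2)}

/-- The constant `K*(ρ, r, n)`. -/
noncomputable def Kstar (n : ℕ) (ρ r : ℝ) : ℝ := sSup (quotients n ρ r)

lemma le_supNorm {n : ℕ} {u : EuclideanSpace ℝ (Fin n) → ℂ} {s : ℝ} (hs : s ≤ 1)
    (hb : BddAbove ((fun x => ‖u x‖) '' Metric.ball 0 1)) {x : EuclideanSpace ℝ (Fin n)}
    (hx : x ∈ Metric.ball (0 : EuclideanSpace ℝ (Fin n)) s) : ‖u x‖ ≤ supNorm u s :=
  le_csSup (hb.mono (Set.image_mono (Metric.ball_subset_ball hs))) ⟨x, hx, rfl⟩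

lemma supNorm_le {n : ℕ} {u : EuclideanSpace ℝ (Fin n) → ℂ} {s B : ℝ} (hs : 0 < s)
    (hB : ∀ x ∈ Metric.ball (0 : EuclideanSpace ℝ (Fin n)) s, ‖u x‖ ≤ B) : supNorm u s ≤ B := by
  apply csSup_le
  · exact ⟨_, 0, Metric.mem_ball_self hs, rfl⟩
  · rintro _ ⟨x, hx, rfl⟩
    exact hB x hx

lemma supNorm_nonneg {n : ℕ} (u : EuclideanSpace ℝ (Fin n) → ℂ) (s : ℝ) : 0 ≤ supNorm u s := by
  apply Real.sSup_nonneg
  rintro _ ⟨x, _, rfl⟩
  exact norm_nonneg _

/-- The constant function `1`. -/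
lemma const_mem (n : ℕ) : (fun _ => 1 : EuclideanSpace ℝ (Fin n) → ℂ) ∈ classH n ∧
    ∀ s : ℝ, 0 < s → supNorm (fun _ => 1 : EuclideanSpace ℝ (Fin n) → ℂ) s = 1 := by
  have h1 : ∀ s : ℝ, 0 < s → (fun x : EuclideanSpace ℝ (Fin n) =>
      ‖(fun _ => 1 : EuclideanSpace ℝ (Fin n) → ℂ) x‖) '' Metric.ball 0 s = {1} := by
    intro s hs
    ext t
    simp only [Set.mem_image, norm_one, Set.mem_singleton_iff]
    constructor
    · rintro ⟨_, _, h⟩; exact h.symm
    · intro h; exact ⟨0, Metric.mem_ball_self hs, h.symm⟩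
  have h2 : ∀ s : ℝ, 0 < s → supNorm (fun _ => 1 : EuclideanSpace ℝ (Fin n) → ℂ) s = 1 := by
    intro s hs
    rw [supNorm, h1 s hs, csSup_singleton]
  refine ⟨⟨harmonicOnNhd_const 1, ?_, h2 1 one_pos⟩, h2⟩
  rw [h1 1 one_pos]
  exact bddAbove_singleton

/-- For all `n ≥ 2`, `0 < ρ < 1` and `ρ < r ≤ ρ + ρ (1 - ρ) / (5 * 10 ^ 8 * n ^ 8)` the number
`1` is the greatest of the quotients, and `K*(ρ, r, n) = 1`. -/
theorem result : ∀ n : ℕ, 2 ≤ n → ∀ ρ r : ℝ, 0 < ρ → ρ < 1 → ρ < r →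
    r ≤ ρ + ρ * (1 - ρ) / (5 * 10 ^ 8 * n ^ 8) →
      IsGreatest (quotients n ρ r) 1 ∧ Kstar n ρ r = 1 := by
  intro n hn ρ r hρ0 hρ1 hρr hrr
  have hE : 2 ≤ Module.finrank ℝ (EuclideanSpace ℝ (Fin n)) := by
    rw [finrank_euclideanSpace_fin]
    exact hn
  have hn2 : (2 : ℝ) ≤ n := by exact_mod_cast hn
  have hr0 : 0 < r := hρ0.trans hρr
  have hr1 : r < 1 := by
    have h1 : ρ * (1 - ρ) / (5 * 10 ^ 8 * n ^ 8) < 1 - ρ := by
      have h2 : (1 : ℝ) ≤ (n : ℝ) ^ 8 := one_le_pow₀ (by linarith)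
      rw [div_lt_iff₀ (by positivity)]
      have h3 : 0 < 1 - ρ := by linarith
      have h4 : ρ < 5 * 10 ^ 8 * (n : ℝ) ^ 8 := by linarith
      nlinarith [mul_lt_mul_of_pos_left h4 h3]
    linarith
  have hlogρ : Real.log ρ < 0 := Real.log_neg hρ0 hρ1
  have hlogr : Real.log r < 0 := Real.log_neg hr0 hr1
  have hlog : Real.log ρ < Real.log r := Real.log_lt_log hρ0 hρr
  have hβ0 : 0 < Real.log r / Real.log ρ := div_pos_of_neg_of_neg hlogr hlogρ
  have hβ1 : Real.log r / Real.log ρ < 1 := by rw [div_lt_one_of_neg hlogρ]; exact hlog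
  have hgreat : IsGreatest (quotients n ρ r) 1 := by
    refine ⟨⟨_, (const_mem n).1, ?_⟩, ?_⟩
    · rw [(const_mem n).2 r hr0, (const_mem n).2 ρ hρ0, Real.one_rpow, div_one]
    · rintro _ ⟨u, hu, rfl⟩
      obtain ⟨hh, hbdd, hnorm⟩ := hu
      rcases (supNorm_nonneg u ρ).eq_or_lt with h0 | h0
      · rw [← h0, Real.zero_rpow (by positivity), div_zero]
        exact zero_le_one
      · have hε1 : supNorm u ρ ≤ 1 := by
          rw [← hnorm]
          exact csSup_le_csSup hbdd ⟨_, 0, Metric.mem_ball_self hρ0, rfl⟩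
            (Set.image_mono (Metric.ball_subset_ball hρ1.le))
        have h4 : supNorm u r ≤ √(supNorm u ρ) := by
          apply supNorm_le hr0
          intro x hx
          rw [mem_ball_zero_iff] at hx
          refine ThreeBallsHD.near_complex hE hρ0 hρ1 h0 hε1 (fun y hy => hh y hy) ?_ ?_ ?_
          · intro y hy
            have := le_supNorm le_rfl hbdd hy
            rwa [hnorm] at this
          · intro y hy
            exact le_supNorm hρ1.le hbdd hy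
          · rw [finrank_euclideanSpace_fin]
            linarith
        rw [div_le_one (Real.rpow_pos_of_pos h0 _)]
        refine h4.trans ?_
        rw [Real.sqrt_eq_rpow]
        exact Real.rpow_le_rpow_of_exponent_ge h0 hε1 (by linarith)
  exact ⟨hgreat, hgreat.csSup_eq⟩

end Pool.Agent.Results.MP_e54599_an.OneNearDiagonal
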