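import Mathlib
import Pool.Agent.Lib.MP_e54599_an.Disc

/-!
The sharp constant in the three-balls inequality in the plane: `K*(ρ, r, 2) = 1`.
-/

namespace Pool.Agent.Results.MP_e54599_an.PlaneConstant

open InnerProductSpace

/-- `‖u‖_s`, the supremum of `|u|` over the open ball `B(0,s)` of `ℝ^n`. -/
noncomputable def supNorm {n : ℕ} (u : EuclideanSpace ℝ (Fin n) → ℂ) (s : ℝ) : ℝ :=
  sSup ((fun x => ‖u x‖) '' Metric.ball 0 s)

/-- The class `H` of bounded complex-valued harmonic functions on the unit ball of `ℝ^n` with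
`‖u‖_1 = 1`. -/
def classH (n : ℕ) : Set (EuclideanSpace ℝ (Fin n) → ℂ) :=
  {u | HarmonicOnNhd u (Metric.ball 0 1) ∧
    BddAbove ((fun x => ‖u x‖) '' Metric.ball 0 1) ∧ supNorm u 1 = 1}

/-- The set of the quotients `‖u‖_r / ‖u‖_ρ ^ (β/2)`, `β = log r / log ρ`, for `u` in `H`. -/
def quotients (n : ℕ) (ρ r : ℝ) : Set ℝ :=
  {t | ∃ u ∈ classH n, t = supNorm u r / supNorm u ρ ^ (Real.log r / Real.log ρ / 2)}

/-- The constant `K*(ρ, r, n)`. -/
noncomputable def Kstar (n : ℕ) (ρ r : ℝ) : ℝ := sSup (quotients n ρ r)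

lemma le_supNorm {n : ℕ} {u : EuclideanSpace ℝ (Fin n) → ℂ} {s : ℝ} (hs : s ≤ 1)
    (hb : BddAbove ((fun x => ‖u x‖) '' Metric.ball 0 1)) {x : EuclideanSpace ℝ (Fin n)}
    (hx : x ∈ Metric.ball (0 : EuclideanSpace ℝ (Fin n)) s) : ‖u x‖ ≤ supNorm u s :=
  le_csSup (hb.mono (Set.image_mono (Metric.ball_subset_ball hs))) ⟨x, hx, rfl⟩

lemma supNorm_le {n : ℕ} {u : EuclideanSpace ℝ (Fin n) → ℂ} {s B : ℝ} (hs : 0 < s)
    (hB : ∀ x ∈ Metric.ball (0 : EuclideanSpace ℝ (Fin n)) s, ‖u x‖ ≤ B) : supNorm u s ≤ B := by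
  apply csSup_le
  · exact ⟨_, 0, Metric.mem_ball_self hs, rfl⟩
  · rintro _ ⟨x, hx, rfl⟩
    exact hB x hx

lemma supNorm_nonneg {n : ℕ} (u : EuclideanSpace ℝ (Fin n) → ℂ) (s : ℝ) : 0 ≤ supNorm u s := by
  apply Real.sSup_nonneg
  rintro _ ⟨x, _, rfl⟩
  exact norm_nonneg _

/-- Pointwise inequality in the plane. -/
lemma pointwise {u : EuclideanSpace ℝ (Fin 2) → ℂ} (hu : u ∈ classH 2) {ρ ε : ℝ} (hρ0 : 0 < ρ)
    (hρ1 : ρ < 1) (hε0 : 0 < ε) (hε1 : ε ≤ 1)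
    (hbρ : ∀ x ∈ Metric.ball (0 : EuclideanSpace ℝ (Fin 2)) ρ, ‖u x‖ ≤ ε)
    {x : EuclideanSpace ℝ (Fin 2)} (h1 : ρ < ‖x‖) (h2 : ‖x‖ < 1) :
    ‖u x‖ ≤ ε ^ (Real.log ‖x‖ / Real.log ρ / 2) := by
  obtain ⟨hh, hbdd, hnorm⟩ := hu
  set e := Complex.orthonormalBasisOneI.repr with he
  have hball : ∀ (z : ℂ) (s : ℝ), z ∈ Metric.ball (0 : ℂ) s →
      e z ∈ Metric.ball (0 : EuclideanSpace ℝ (Fin 2)) s := by
    intro z s hz
    rw [mem_ball_zero_iff] at hz ⊢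
    rwa [e.norm_map]
  have hx : e (e.symm x) = x := e.apply_symm_apply x
  have hn : ‖e.symm x‖ = ‖x‖ := e.symm.norm_map x
  have key := ThreeBalls.disc_main (u := u ∘ e)
    (ThreeBalls.harmonicOnNhd_comp_isometry e hh)
    (fun z hz => by
      have := le_supNorm le_rfl hbdd (hball z 1 hz)
      rw [hnorm] at this
      exact this)
    hρ0 hρ1 hε0 hε1 (fun z hz => hbρ _ (hball z ρ hz)) (z₀ := e.symm x)
    (by rw [hn]; exact h1) (by rw [hn]; exact h2)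
  rw [hn] at key
  simpa [Function.comp_apply, hx] using key

lemma supNorm_pos {u : EuclideanSpace ℝ (Fin 2) → ℂ} (hu : u ∈ classH 2) {ρ : ℝ} (hρ0 : 0 < ρ)
    (hρ1 : ρ < 1) : 0 < supNorm u ρ := by
  by_contra hcon
  have h0 : supNorm u ρ = 0 := le_antisymm (not_lt.mp hcon) (supNorm_nonneg u ρ)
  have hz : ∀ x ∈ Metric.ball (0 : EuclideanSpace ℝ (Fin 2)) ρ, ‖u x‖ ≤ 0 := by
    intro x hx
    have := le_supNorm hρ1.le hu.2.1 hx
    rwa [h0] at this
  have hlogρ : Real.log ρ < 0 := Real.log_neg hρ0 hρ1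
  -- a smaller radius, to reach the sphere of radius `ρ` too
  have hall : ∀ x ∈ Metric.ball (0 : EuclideanSpace ℝ (Fin 2)) 1, ‖u x‖ ≤ 0 := by
    intro x hx
    rw [mem_ball_zero_iff] at hx
    rcases lt_or_ge ‖x‖ ρ with h | h
    · exact hz x (by rw [mem_ball_zero_iff]; exact h)
    · have hρ2 : 0 < ρ / 2 := by linarith
      have hxρ : ρ / 2 < ‖x‖ := by linarith
      have hx0 : 0 < ‖x‖ := by linarith
      set a := Real.log ‖x‖ / Real.log (ρ / 2) / 2 with ha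
      have ha0 : 0 < a := by
        have h3 : Real.log ‖x‖ < 0 := Real.log_neg hx0 hx
        have h4 : Real.log (ρ / 2) < 0 := Real.log_neg hρ2 (by linarith)
        have := div_pos_of_neg_of_neg h3 h4
        rw [ha]; linarith
      have hε : ∀ ε : ℝ, 0 < ε → ε ≤ 1 → ‖u x‖ ≤ ε ^ a := by
        intro ε hε0 hε1
        refine pointwise hu hρ2 (by linarith) hε0 hε1 ?_ hxρ hx
        intro y hy
        rw [mem_ball_zero_iff] at hy
        exact (hz y (by rw [mem_ball_zero_iff]; linarith)).trans hε0.le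
      have hlim : Filter.Tendsto (fun ε : ℝ => ε ^ a) (nhdsWithin 0 (Set.Ioi 0)) (nhds 0) := by
        have h5 : Filter.Tendsto (fun ε : ℝ => ε ^ a) (nhds 0) (nhds ((0 : ℝ) ^ a)) :=
          (Real.continuousAt_rpow_const 0 a (Or.inr ha0.le)).tendsto
        rw [Real.zero_rpow ha0.ne'] at h5
        exact h5.mono_left nhdsWithin_le_nhds
      refine ge_of_tendsto hlim ?_
      filter_upwards [Ioo_mem_nhdsGT (show (0 : ℝ) < 1 from one_pos)] with ε hε'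
      exact hε ε hε'.1 hε'.2.le
  have h1 := supNorm_le one_pos hall
  rw [hu.2.2] at h1
  linarith

lemma main_le {u : EuclideanSpace ℝ (Fin 2) → ℂ} (hu : u ∈ classH 2) {ρ r : ℝ} (hρ0 : 0 < ρ)
    (hρr : ρ < r) (hr1 : r < 1) :
    supNorm u r ≤ supNorm u ρ ^ (Real.log r / Real.log ρ / 2) := by
  have hρ1 : ρ < 1 := hρr.trans hr1
  have hr0 : 0 < r := hρ0.trans hρr
  set ε := supNorm u ρ with hε
  have hε0 : 0 < ε := supNorm_pos hu hρ0 hρ1
  have hε1 : ε ≤ 1 := by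
    rw [← hu.2.2]
    exact csSup_le_csSup hu.2.1 ⟨_, 0, Metric.mem_ball_self hρ0, rfl⟩
      (Set.image_mono (Metric.ball_subset_ball hρ1.le))
  have hlogρ : Real.log ρ < 0 := Real.log_neg hρ0 hρ1
  have hlogr : Real.log r < 0 := Real.log_neg hr0 hr1
  have hlog : Real.log ρ < Real.log r := Real.log_lt_log hρ0 hρr
  set β := Real.log r / Real.log ρ with hβ
  have hβ0 : 0 < β := div_pos_of_neg_of_neg hlogr hlogρ
  have hβ1 : β < 1 := by rw [hβ, div_lt_one_of_neg hlogρ]; exact hlog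
  have hbρ : ∀ x ∈ Metric.ball (0 : EuclideanSpace ℝ (Fin 2)) ρ, ‖u x‖ ≤ ε :=
    fun x hx => le_supNorm hρ1.le hu.2.1 hx
  apply supNorm_le hr0
  intro x hx
  rw [mem_ball_zero_iff] at hx
  rcases lt_trichotomy ‖x‖ ρ with h | h | h
  · refine (hbρ x (by rw [mem_ball_zero_iff]; exact h)).trans ?_
    calc ε = ε ^ (1 : ℝ) := (Real.rpow_one ε).symm
      _ ≤ ε ^ (β / 2) := Real.rpow_le_rpow_of_exponent_ge hε0 hε1 (by linarith)
  · -- on the sphere of radius `ρ` use a smaller radius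
    set ρ' := Real.exp (Real.log ρ / β) with hρ'
    have hρ'0 : 0 < ρ' := Real.exp_pos _
    have hlog' : Real.log ρ' = Real.log ρ / β := Real.log_exp _
    have hρ'ρ : ρ' < ρ := by
      rw [← Real.log_lt_log_iff hρ'0 hρ0, hlog', div_lt_iff₀ hβ0]
      nlinarith
    have h3 := pointwise hu hρ'0 (hρ'ρ.trans hρ1) hε0 hε1
      (fun y hy => hbρ y (Metric.ball_subset_ball hρ'ρ.le hy)) (x := x) (by rw [h]; exact hρ'ρ)
      (by linarith)
    have h4 : Real.log ‖x‖ / Real.log ρ' / 2 = β / 2 := by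
      rw [h, hlog']
      have h5 : Real.log ρ ≠ 0 := hlogρ.ne
      field_simp
    rwa [h4] at h3
  · have h3 := pointwise hu hρ0 hρ1 hε0 hε1 hbρ h (hx.trans hr1)
    refine h3.trans (Real.rpow_le_rpow_of_exponent_ge hε0 hε1 ?_)
    have h4 : Real.log ‖x‖ ≤ Real.log r := Real.log_le_log (hρ0.trans h) hx.le
    have h5 : β ≤ Real.log ‖x‖ / Real.log ρ := by
      rw [hβ]
      exact div_le_div_of_nonpos_of_le hlogρ.le h4
    linarith

lemma const_mem (n : ℕ) : (fun _ => 1 : EuclideanSpace ℝ (Fin n) → ℂ) ∈ classH n ∧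
    ∀ s : ℝ, 0 < s → supNorm (fun _ => 1 : EuclideanSpace ℝ (Fin n) → ℂ) s = 1 := by
  have h1 : ∀ s : ℝ, 0 < s → (fun x : EuclideanSpace ℝ (Fin n) =>
      ‖(fun _ => 1 : EuclideanSpace ℝ (Fin n) → ℂ) x‖) '' Metric.ball 0 s = {1} := by
    intro s hs
    ext t
    simp only [Set.mem_image, norm_one, Set.mem_singleton_iff]
    constructor
    · rintro ⟨_, _, h⟩; exact h.symm
    · intro h; exact ⟨0, Metric.mem_ball_self hs, h.symm⟩
  have h2 : ∀ s : ℝ, 0 < s → supNorm (fun _ => 1 : EuclideanSpace ℝ (Fin n) → ℂ) s = 1 := by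
    intro s hs
    rw [supNorm, h1 s hs, csSup_singleton]
  refine ⟨⟨harmonicOnNhd_const 1, ?_, h2 1 one_pos⟩, h2⟩
  rw [h1 1 one_pos]
  exact bddAbove_singleton

theorem result : ∀ ρ r : ℝ, 0 < ρ → ρ < r → r < 1 →
    (∀ u ∈ classH 2, 0 < supNorm u ρ) ∧ IsGreatest (quotients 2 ρ r) 1 ∧ Kstar 2 ρ r = 1 := by
  intro ρ r hρ0 hρr hr1
  have hpos : ∀ u ∈ classH 2, 0 < supNorm u ρ := fun u hu => supNorm_pos hu hρ0 (hρr.trans hr1)
  have hgreat : IsGreatest (quotients 2 ρ r) 1 := by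
    refine ⟨⟨_, (const_mem 2).1, ?_⟩, ?_⟩
    · rw [(const_mem 2).2 r (hρ0.trans hρr), (const_mem 2).2 ρ hρ0, Real.one_rpow, div_one]
    · rintro _ ⟨u, hu, rfl⟩
      rw [div_le_one (Real.rpow_pos_of_pos (hpos u hu) _)]
      exact main_le hu hρ0 hρr hr1
  exact ⟨hpos, hgreat, hgreat.csSup_eq⟩

end Pool.Agent.Results.MP_e54599_an.PlaneConstant
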